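import Pool.Agent.H121.GA.IfB
set_option autoImplicit false

/-!
# Project GA: eigenvectors from atoms of the spectral measures (S_atom)
-/

open scoped BigOperators InnerProductSpace Topology ENNReal ComplexConjugate
open Filter MeasureTheory

namespace Pool.Agent.H722.GA

open Pool.Agent.Y662.TR (LL dv)
open Pool.Agent.TH369.MU (ep zk)
open Pool.Agent.H987.Z (Rs)
open Pool.Agent.H121.GA
open Pool.Agent.H717.Z987 (ep_pos' ep_lim Fm kp Fm_atom)

theorem zk_im (t : ℝ) (k : ℕ) : (zk t k).im ≠ 0 := by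
  unfold zk
  simp [(ep_pos' k).ne']

/-- the approximate eigenvectors -/
noncomputable def uu {ι : Type} (R : ℂ → LL ι →L[ℂ] LL ι) (f : LL ι) (t : ℝ) (k : ℕ) : LL ι :=
  (-(Complex.I * (ep k : ℂ))) • R (zk t k) f

/-- the approximations of the mass -/
noncomputable def cc (m : Measure ℝ) (t : ℝ) (k : ℕ) : ℂ :=
  -(Complex.I * (ep k : ℂ)) * Fm m (ep k) t

theorem gram {ι : Type} (R : ℂ → LL ι →L[ℂ] LL ι) (hR : Rf R) (f : LL ι) (m : Measure ℝ)
    (hm : SpR R f m) (t : ℝ) (k l : ℕ) :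
    ((ep k + ep l : ℝ) : ℂ) * ⟪uu R f t k, uu R f t l⟫_ℂ =
      (ep l : ℂ) * conj (cc m t k) + (ep k : ℂ) * cc m t l := by
  have hk := zk_im t k
  have hl := zk_im t l
  have hk' : (conj (zk t k)).im ≠ 0 := by rw [Complex.conj_im]; exact neg_ne_zero.2 hk
  have e1 : ⟪f, R (zk t l) f⟫_ℂ = Fm m (ep l) t := hm.2 _ hl
  have e2 : ⟪f, R (conj (zk t k)) f⟫_ℂ = conj (Fm m (ep k) t) := by
    rw [hm.2 _ hk']
    unfold Fm
    rw [← integral_conj]
    refine integral_congr_ae (Eventually.of_forall fun x => ?_)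
    simp only [kp, zk, map_inv₀, map_sub, Complex.conj_ofReal]
  have e3 := congrArg (fun v => ⟪f, v⟫_ℂ) (hR.id _ _ hk' hl f)
  simp only [inner_sub_right, inner_smul_right] at e3
  rw [e1, e2] at e3
  have e4 : conj (zk t k) - zk t l = -(Complex.I * ((ep k : ℂ) + (ep l : ℂ))) := by
    simp only [zk, map_add, map_mul, Complex.conj_ofReal, Complex.conj_I]
    ring
  rw [e4] at e3
  unfold uu
  rw [inner_smul_left, inner_smul_right, hR.ad _ hk]
  unfold cc
  simp only [map_neg, map_mul, Complex.conj_I, Complex.conj_ofReal, Complex.ofReal_add]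
  linear_combination (-(Complex.I * (ep k : ℂ) * (ep l : ℂ))) * e3

theorem gram_bd {ι : Type} (R : ℂ → LL ι →L[ℂ] LL ι) (hR : Rf R) (f : LL ι) (m : Measure ℝ)
    (hm : SpR R f m) (t : ℝ) (k l : ℕ) :
    ‖⟪uu R f t k, uu R f t l⟫_ℂ - ((m.real {t} : ℝ) : ℂ)‖ ≤
      ‖cc m t k - ((m.real {t} : ℝ) : ℂ)‖ + ‖cc m t l - ((m.real {t} : ℝ) : ℂ)‖ := by
  have hk := ep_pos' k
  have hl := ep_pos' l
  set μ : ℂ := ((m.real {t} : ℝ) : ℂ) with hμ
  have h1 : ((ep k + ep l : ℝ) : ℂ) * (⟪uu R f t k, uu R f t l⟫_ℂ - μ) =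
      (ep l : ℂ) * conj (cc m t k - μ) + (ep k : ℂ) * (cc m t l - μ) := by
    rw [mul_sub, gram R hR f m hm t k l, map_sub, hμ, Complex.conj_ofReal]
    push_cast
    ring
  have h2 := congrArg norm h1
  rw [norm_mul, Complex.norm_real, Real.norm_of_nonneg (by positivity)] at h2
  have h3 : ‖(ep l : ℂ) * conj (cc m t k - μ) + (ep k : ℂ) * (cc m t l - μ)‖ ≤
      ep l * ‖cc m t k - μ‖ + ep k * ‖cc m t l - μ‖ := by
    refine (norm_add_le _ _).trans ?_
    rw [norm_mul, norm_mul, Complex.norm_real, Complex.norm_real, Real.norm_of_nonneg hk.le,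
      Real.norm_of_nonneg hl.le, RCLike.norm_conj]
  have h4 : (ep k + ep l) * ‖⟪uu R f t k, uu R f t l⟫_ℂ - μ‖ ≤
      (ep k + ep l) * (‖cc m t k - μ‖ + ‖cc m t l - μ‖) := by
    rw [h2]
    refine h3.trans ?_
    have := norm_nonneg (cc m t k - μ)
    have := norm_nonneg (cc m t l - μ)
    nlinarith [mul_nonneg hk.le (norm_nonneg (cc m t k - μ)),
      mul_nonneg hl.le (norm_nonneg (cc m t l - μ))]
  exact le_of_mul_le_mul_left h4 (by positivity)

theorem atom (hA : S_ruA) (hB : S_ruB) : S_atom := by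
  intro ι _ T hT V y m hm t ht
  have hR := hB ι T hT V
  have := hm.1
  set R := RU T V with hRd
  set f : LL ι := dv y with hf
  set μ : ℝ := m.real {t} with hμ
  have hμ0 : 0 < μ := by
    rw [hμ]
    exact ENNReal.toReal_pos ht (measure_ne_top m _)
  have hc : Tendsto (fun k => ‖cc m t k - (μ : ℂ)‖) atTop (𝓝 0) := by
    have := (Fm_atom m t).sub_const (μ : ℂ)
    rw [sub_self] at this
    have := this.norm
    rwa [norm_zero] at this
  have hb := fun k l => gram_bd R hR f m hm t k l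
  rw [← hμ] at hb
  have hsq : ∀ k l, ‖uu R f t k - uu R f t l‖ ^ 2 ≤
      4 * (‖cc m t k - (μ : ℂ)‖ + ‖cc m t l - (μ : ℂ)‖) := by
    intro k l
    have h1 := @norm_sub_sq ℂ _ _ _ _ (uu R f t k) (uu R f t l)
    have hkk := hb k k
    have hll := hb l l
    have hkl := hb k l
    have r1 := (Complex.abs_re_le_norm _).trans hkk
    have r2 := (Complex.abs_re_le_norm _).trans hll
    have r3 := (Complex.abs_re_le_norm _).trans hkl
    rw [Complex.sub_re, Complex.ofReal_re] at r1 r2 r3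
    have n1 : (⟪uu R f t k, uu R f t k⟫_ℂ).re = ‖uu R f t k‖ ^ 2 :=
      inner_self_eq_norm_sq (𝕜 := ℂ) (uu R f t k)
    have n2 : (⟪uu R f t l, uu R f t l⟫_ℂ).re = ‖uu R f t l‖ ^ 2 :=
      inner_self_eq_norm_sq (𝕜 := ℂ) (uu R f t l)
    rw [n1] at r1
    rw [n2] at r2
    have h2 : RCLike.re ⟪uu R f t k, uu R f t l⟫_ℂ = (⟪uu R f t k, uu R f t l⟫_ℂ).re := rfl
    rw [h2] at h1
    rw [abs_le] at r1 r2 r3
    rw [h1]
    linarith [r1.1, r1.2, r2.1, r2.2, r3.1, r3.2]
  have hcau : CauchySeq (uu R f t) := by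
    rw [Metric.cauchySeq_iff]
    intro ε hε
    have h1 : ∀ᶠ k in atTop, ‖cc m t k - (μ : ℂ)‖ < ε ^ 2 / 8 :=
      hc.eventually_lt_const (by positivity)
    obtain ⟨N, hN⟩ := eventually_atTop.1 h1
    refine ⟨N, fun k hk l hl => ?_⟩
    rw [dist_eq_norm]
    have h2 := hsq k l
    have h3 := hN k hk
    have h4 := hN l hl
    refine lt_of_pow_lt_pow_left₀ 2 hε.le ?_
    linarith
  obtain ⟨u, hu⟩ := cauchySeq_tendsto_of_complete hcau
  have hn : ‖u‖ ^ 2 = μ := by
    have h1 : Tendsto (fun k => ‖uu R f t k‖ ^ 2) atTop (𝓝 (‖u‖ ^ 2)) := (hu.norm).pow 2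
    have h2 : Tendsto (fun k => ‖uu R f t k‖ ^ 2) atTop (𝓝 μ) := by
      rw [tendsto_iff_norm_sub_tendsto_zero]
      refine squeeze_zero (fun k => norm_nonneg _) (fun k => ?_) (by
        simpa using (hc.add hc))
      have hkk := hb k k
      have r1 := (Complex.abs_re_le_norm _).trans hkk
      rw [Complex.sub_re, Complex.ofReal_re] at r1
      have n1 : (⟪uu R f t k, uu R f t k⟫_ℂ).re = ‖uu R f t k‖ ^ 2 :=
        inner_self_eq_norm_sq (𝕜 := ℂ) (uu R f t k)
      rw [n1] at r1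
      exact r1
    exact tendsto_nhds_unique h1 h2
  refine ⟨u, ?_, fun x => ?_⟩
  · intro h
    rw [h, norm_zero] at hn
    norm_num at hn
    exact hμ0.ne hn
  · have hev : Continuous (fun v : LL ι => (v : ι → ℂ) x) := by
      have := (continuous_apply x).comp (lp.uniformContinuous_coe (E := fun _ : ι => ℂ)
        (p := 2)).continuous
      exact this
    have h1 : ∀ k, T (uu R f t k) x + ((V x : ℝ) : ℂ) * uu R f t k x =
        zk t k * uu R f t k x + (-(Complex.I * (ep k : ℂ))) * f x := by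
      intro k
      have h2 := (hA ι T hT V (zk t k) (zk_im t k)).2.2.1 f x
      rw [← hRd] at h2
      unfold uu
      rw [map_smul]
      simp only [lp.coeFn_smul, Pi.smul_apply, smul_eq_mul]
      rw [← h2]
      ring
    have l1 : Tendsto (fun k => T (uu R f t k) x + ((V x : ℝ) : ℂ) * uu R f t k x) atTop
        (𝓝 (T u x + ((V x : ℝ) : ℂ) * u x)) :=
      ((hev.tendsto _).comp ((T.continuous.tendsto _).comp hu)).add
        (((hev.tendsto _).comp hu).const_mul _)
    have hep : Tendsto (fun k => (ep k : ℂ)) atTop (𝓝 0) := by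
      have := (Complex.continuous_ofReal.tendsto _).comp ep_lim
      rwa [Complex.ofReal_zero] at this
    have l2 : Tendsto (fun k => zk t k * uu R f t k x + (-(Complex.I * (ep k : ℂ))) * f x) atTop
        (𝓝 (((t : ℂ) + 0 * Complex.I) * u x + (-(Complex.I * 0)) * f x)) := by
      refine Tendsto.add (Tendsto.mul ?_ ((hev.tendsto _).comp hu)) (Tendsto.mul_const _ ?_)
      · exact (hep.mul_const _).const_add _
      · exact (hep.const_mul _).neg
    have h3 := tendsto_nhds_unique (l1.congr h1) l2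
    rw [h3]
    ring

end Pool.Agent.H722.GA
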