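import Pool.Agent.H121.GA.IfB
set_option autoImplicit false

/-!
# Project GA: facts about the standard normal law (S_gaus)
-/

open scoped BigOperators InnerProductSpace Topology ENNReal
open Filter MeasureTheory

namespace Pool.Agent.H722.GA

open Pool.Agent.H121.GA

open ProbabilityTheory

theorem pdf_le (v : ℝ) : gaussianPDFReal 0 1 v ≤ 72 / (1 + |v|) ^ 4 := by
  have h0 : (0 : ℝ) < (1 + |v|) ^ 4 := by positivity
  rw [le_div_iff₀ h0, gaussianPDFReal_def]
  simp only [NNReal.coe_one, mul_one, sub_zero]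
  have h1 : (√(2 * Real.pi))⁻¹ ≤ 1 := by
    apply inv_le_one_of_one_le₀
    rw [Real.one_le_sqrt]
    have := Real.pi_gt_three
    linarith
  have h2 : (1 + |v|) ^ 4 ≤ 8 * (1 + v ^ 4) := by
    have e : v ^ 4 = |v| ^ 4 := by rw [← abs_pow, abs_of_nonneg (by positivity)]
    rw [e]
    nlinarith [sq_nonneg (|v| - 1), sq_nonneg (|v| ^ 2 - 1), sq_nonneg (|v| ^ 2 - |v|),
      abs_nonneg v, sq_nonneg (|v| ^ 2 - 2 * |v| + 1), mul_nonneg (abs_nonneg v)
      (sq_nonneg (|v| - 1))]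
  have h3 : 0 ≤ v ^ 2 / 2 := by positivity
  have h4 : 1 ≤ Real.exp (v ^ 2 / 2) := Real.one_le_exp h3
  have h5 : v ^ 4 ≤ 8 * Real.exp (v ^ 2 / 2) := by
    have := Real.quadratic_le_exp_of_nonneg h3
    nlinarith
  have h6 : (1 + |v|) ^ 4 ≤ 72 * Real.exp (v ^ 2 / 2) := by linarith
  have h7 : Real.exp (-v ^ 2 / 2) * Real.exp (v ^ 2 / 2) = 1 := by
    rw [← Real.exp_add]; simp; ring
  have h8 : 0 < Real.exp (-v ^ 2 / 2) := Real.exp_pos _
  have h9 : 0 ≤ (√(2 * Real.pi))⁻¹ := by positivity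
  calc (√(2 * Real.pi))⁻¹ * Real.exp (-v ^ 2 / 2) * (1 + |v|) ^ 4
      ≤ 1 * Real.exp (-v ^ 2 / 2) * (72 * Real.exp (v ^ 2 / 2)) := by gcongr
    _ = 72 * (Real.exp (-v ^ 2 / 2) * Real.exp (v ^ 2 / 2)) := by ring
    _ = 72 := by rw [h7, mul_one]

theorem mom_lt (k : ℕ) (hk : Even k) :
    ∫⁻ v, ENNReal.ofReal (v ^ k) ∂(gaussianReal 0 1) < ⊤ := by
  rcases Nat.eq_zero_or_pos k with h0 | h0
  · subst h0; simp
  have h1 : MemLp (id : ℝ → ℝ) (k : ℝ≥0∞) (gaussianReal 0 1) :=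
    memLp_id_gaussianReal' _ (by simp)
  have h2 := h1.eLpNorm_lt_top
  rw [eLpNorm_lt_top_iff_lintegral_rpow_enorm_lt_top (by exact_mod_cast h0.ne') (by simp)] at h2
  refine lt_of_eq_of_lt (lintegral_congr fun v => ?_) h2
  simp only [ENNReal.toReal_natCast, id, ENNReal.rpow_natCast]
  rw [← hk.pow_abs, ENNReal.ofReal_pow (abs_nonneg v), Real.enorm_eq_ofReal_abs]

theorem mom_map (k : ℕ) (hk : Even k) (lam : ℝ) :
    ∫⁻ v, ENNReal.ofReal (v ^ k) ∂((gaussianReal 0 1).map fun v => lam * v) =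
      ENNReal.ofReal (lam ^ k) * ∫⁻ v, ENNReal.ofReal (v ^ k) ∂(gaussianReal 0 1) := by
  rw [lintegral_map (by fun_prop) (by fun_prop), ← lintegral_const_mul _ (by fun_prop)]
  refine lintegral_congr fun v => ?_
  rw [mul_pow, ENNReal.ofReal_mul (hk.pow_nonneg lam)]

theorem gaus : S_gaus := by
  refine ⟨?_, ?_, ?_, ?_⟩
  · intro A hA
    rw [gaussianReal_of_var_ne_zero 0 one_ne_zero, withDensity_apply _ hA]
    refine lintegral_mono fun v => ?_
    exact ENNReal.ofReal_le_ofReal (pdf_le v)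
  · intro a b hab
    rw [pos_iff_ne_zero]
    intro h
    have := gaussianReal_absolutelyContinuous' 0 one_ne_zero h
    rw [Real.volume_Ioo] at this
    simp at this
    linarith
  · rw [gaussianReal_map_neg, neg_zero]
  · intro δ hδ
    set M2 := ∫⁻ v, ENNReal.ofReal (v ^ 2) ∂(gaussianReal 0 1) with hM2
    set M12 := ∫⁻ v, ENNReal.ofReal (v ^ 12) ∂(gaussianReal 0 1) with hM12
    have h2 : M2 < ⊤ := mom_lt 2 (by decide)
    have h12 : M12 < ⊤ := mom_lt 12 (by decide)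
    set M : ℝ := M2.toReal + M12.toReal + 1 with hM
    have hM0 : 0 < M := by positivity
    have hm0 : 0 < min δ 1 := lt_min hδ one_pos
    refine ⟨min 1 (min δ 1 / M), lt_min one_pos (div_pos hm0 hM0), fun lam hl => ?_⟩
    have hl1 : |lam| ≤ 1 := hl.trans (min_le_left _ _)
    have hl2 : |lam| * M ≤ min δ 1 := by
      rw [← le_div_iff₀ hM0]; exact hl.trans (min_le_right _ _)
    have key : ∀ (k : ℕ), 0 < k → Even k → |lam| ^ k ≤ |lam| := fun k h0 _ =>
      pow_le_of_le_one (abs_nonneg _) hl1 h0.ne'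
    have key2 : ∀ (k : ℕ) (m : ℝ≥0∞), 0 < k → Even k → m < ⊤ → m.toReal ≤ M → 
        ENNReal.ofReal (lam ^ k) * m ≤ ENNReal.ofReal (min δ 1) := by
      intro k m h0 hk hm hmM
      rw [← ENNReal.ofReal_toReal hm.ne, ← ENNReal.ofReal_mul (hk.pow_nonneg lam)]
      apply ENNReal.ofReal_le_ofReal
      calc lam ^ k * m.toReal = |lam| ^ k * m.toReal := by rw [hk.pow_abs]
        _ ≤ |lam| * M := by
          gcongr
          exact key k h0 hk
        _ ≤ _ := hl2
    constructor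
    · rw [mom_map 2 (by decide)]
      refine (key2 2 M2 two_pos (by decide) h2 ?_).trans ?_
      · rw [hM]
        have := ENNReal.toReal_nonneg (a := M12)
        linarith
      · exact ENNReal.ofReal_le_ofReal (min_le_left _ _)
    · rw [mom_map 12 (by decide)]
      refine (key2 12 M12 (by norm_num) (by decide) h12 ?_).trans ?_
      · rw [hM]
        have := ENNReal.toReal_nonneg (a := M2)
        linarith
      · refine (ENNReal.ofReal_le_ofReal (min_le_right _ _)).trans ?_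
        simp
end Pool.Agent.H722.GA
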